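import Pool.Agent.Helper70.DK.Defs

/-! TREE: energy increment on a dyadic tree. -/

set_option autoImplicit false

namespace Pool.Agent.Helper70.DK

open Finset

theorem tree_sum_mul (m n : ℕ) (f : ℕ → ℝ) :
    ∑ i ∈ range (m * n), f i = ∑ q ∈ range m, ∑ j ∈ range n, f (q * n + j) := by
  induction m with
  | zero => simp
  | succ m ih => rw [Nat.succ_mul, Finset.sum_range_add, ih, Finset.sum_range_succ]

theorem tree_mean {A a0 : ℕ} {e : ℕ → ℕ → ℝ}
    (hs : ∀ a q, a0 ≤ a → a < A → q < 2 ^ (A - (a + 1)) →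
      (e a (2 * q) + e a (2 * q + 1)) / 2 ≤ e (a + 1) q) (a : ℕ) (ha : a0 ≤ a) (d : ℕ) :
    ∀ q, a + d ≤ A → q < 2 ^ (A - (a + d)) →
      ∑ j ∈ range (2 ^ d), e a (q * 2 ^ d + j) ≤ (2 : ℝ) ^ d * e (a + d) q := by
  induction d with
  | zero => intro q _ _; simp
  | succ d ih =>
    intro q hA hq
    have e1 : ∑ j ∈ range (2 ^ (d + 1)), e a (q * 2 ^ (d + 1) + j)
        = ∑ j ∈ range (2 ^ d), e a ((2 * q) * 2 ^ d + j)
          + ∑ j ∈ range (2 ^ d), e a ((2 * q + 1) * 2 ^ d + j) := by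
      rw [pow_succ, mul_comm (2 ^ d) 2, tree_sum_mul 2 (2 ^ d)
        (fun j => e a (q * (2 * 2 ^ d) + j)), Finset.sum_range_succ, Finset.sum_range_one]
      congr 1
      · refine Finset.sum_congr rfl fun j _ => ?_
        congr 1
        ring
      · refine Finset.sum_congr rfl fun j _ => ?_
        congr 1
        ring
    have h2 : 2 ^ (A - (a + d)) = 2 * 2 ^ (A - (a + (d + 1))) := by
      rw [← pow_succ']
      congr 1
      omega
    have i1 := ih (2 * q) (by omega) (by omega)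
    have i2 := ih (2 * q + 1) (by omega) (by omega)
    have i3 := hs (a + d) q (by omega) (by omega) hq
    have h3 : (0 : ℝ) < 2 ^ d := by positivity
    rw [e1, pow_succ]
    have i4 : (2 : ℝ) ^ d * (e (a + d) (2 * q) + e (a + d) (2 * q + 1))
        ≤ 2 ^ d * (2 * e (a + (d + 1)) q) := by
      refine mul_le_mul_of_nonneg_left ?_ h3.le
      have : e (a + (d + 1)) q = e (a + d + 1) q := rfl
      rw [this]
      linarith
    nlinarith

/-- the strictly concave function of the energy -/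
noncomputable def tree_psi (K x : ℝ) : ℝ := x - x ^ 2 / (4 * K)

theorem tree_node {K : ℝ} (hK : 1 ≤ K) (n : ℕ) (x : ℝ) (y : ℕ → ℝ) (hx : |x| ≤ K)
    (hm : ∑ j ∈ range n, y j ≤ n * x) :
    (n * x - ∑ j ∈ range n, y j ≤ 2 * (n * tree_psi K x - ∑ j ∈ range n, tree_psi K (y j))) ∧
    ∑ j ∈ range n, (y j - x) ^ 2 ≤
      4 * K * (n * tree_psi K x - ∑ j ∈ range n, tree_psi K (y j)) := by
  have hK0 : 0 < K := by linarith
  set S1 := ∑ j ∈ range n, y j with hS1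
  set S2 := ∑ j ∈ range n, (y j) ^ 2 with hS2
  have hsq : ∑ j ∈ range n, (y j - x) ^ 2 = S2 - 2 * x * S1 + n * x ^ 2 := by
    rw [hS1, hS2, Finset.mul_sum]
    have : ∀ j ∈ range n, (y j - x) ^ 2 = (y j) ^ 2 - 2 * x * y j + x ^ 2 := fun j _ => by ring
    rw [Finset.sum_congr rfl this, Finset.sum_add_distrib, Finset.sum_sub_distrib,
      Finset.sum_const, card_range, nsmul_eq_mul]
  have hps : ∑ j ∈ range n, tree_psi K (y j) = S1 - S2 / (4 * K) := by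
    unfold tree_psi
    rw [Finset.sum_sub_distrib, ← Finset.sum_div]
  have h0 : 0 ≤ ∑ j ∈ range n, (y j - x) ^ 2 := Finset.sum_nonneg fun j _ => sq_nonneg _
  rw [hsq] at h0
  have hxK : x ≤ K := (le_abs_self x).trans hx
  have hD : 0 ≤ n * x - S1 := by linarith
  have h1 : 0 ≤ (n * x - S1) * (K - x) := mul_nonneg hD (by linarith)
  have e2 : 4 * K * (n * tree_psi K x - (S1 - S2 / (4 * K)))
      = 4 * K * (n * x - S1) - n * x ^ 2 + S2 := by
    unfold tree_psi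
    field_simp
    ring
  rw [hps, hsq]
  constructor
  · have e3 : n * x - S1 ≤ 2 * (n * tree_psi K x - (S1 - S2 / (4 * K))) ↔
        2 * K * (n * x - S1) ≤ 4 * K * (n * tree_psi K x - (S1 - S2 / (4 * K))) := by
      constructor
      · intro h
        have := mul_le_mul_of_nonneg_left h (by linarith : (0 : ℝ) ≤ 2 * K)
        linarith
      · intro h
        have h' : (2 * K) * (n * x - S1) ≤
            (2 * K) * (2 * (n * tree_psi K x - (S1 - S2 / (4 * K)))) := by linarith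
        exact le_of_mul_le_mul_left h' (by linarith)
    rw [e3, e2]
    nlinarith
  · rw [e2]
    nlinarith

/-- the energy of the level `a` -/
noncomputable def tree_E (K : ℝ) (A : ℕ) (e : ℕ → ℕ → ℝ) (a : ℕ) : ℝ :=
  (∑ q ∈ range (2 ^ (A - a)), tree_psi K (e a q)) / 2 ^ (A - a)

theorem tree_lev {K : ℝ} (hK : 1 ≤ K) {A a0 : ℕ} {e : ℕ → ℕ → ℝ}
    (hs : ∀ a q, a0 ≤ a → a < A → q < 2 ^ (A - (a + 1)) →
      (e a (2 * q) + e a (2 * q + 1)) / 2 ≤ e (a + 1) q)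
    (hb : ∀ a q, a0 ≤ a → a ≤ A → q < 2 ^ (A - a) → |e a q| ≤ K)
    (a d : ℕ) (ha : a0 ≤ a) (hA : a + d ≤ A) :
    (∀ q, q < 2 ^ (A - (a + d)) →
      0 ≤ e (a + d) q - (∑ j ∈ range (2 ^ d), e a (q * 2 ^ d + j)) / 2 ^ d) ∧
    (∑ q ∈ range (2 ^ (A - (a + d))),
      (e (a + d) q - (∑ j ∈ range (2 ^ d), e a (q * 2 ^ d + j)) / 2 ^ d)
      ≤ 2 * 2 ^ (A - (a + d)) * (tree_E K A e (a + d) - tree_E K A e a)) ∧
    (∑ q ∈ range (2 ^ (A - (a + d))), ∑ j ∈ range (2 ^ d),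
      (e a (q * 2 ^ d + j) - e (a + d) q) ^ 2
      ≤ 4 * K * (2 ^ (A - (a + d)) * 2 ^ d) * (tree_E K A e (a + d) - tree_E K A e a)) := by
  have hd : (0 : ℝ) < 2 ^ d := by positivity
  have hN : (0 : ℝ) < 2 ^ (A - (a + d)) := by positivity
  have hc : (((2 ^ d : ℕ)) : ℝ) = (2 : ℝ) ^ d := by push_cast; rfl
  have hmean := tree_mean hs a ha d
  have hnode : ∀ q ∈ range (2 ^ (A - (a + d))),
      ((2 : ℝ) ^ d * e (a + d) q - ∑ j ∈ range (2 ^ d), e a (q * 2 ^ d + j)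
        ≤ 2 * (2 ^ d * tree_psi K (e (a + d) q) -
          ∑ j ∈ range (2 ^ d), tree_psi K (e a (q * 2 ^ d + j)))) ∧
      ∑ j ∈ range (2 ^ d), (e a (q * 2 ^ d + j) - e (a + d) q) ^ 2 ≤
        4 * K * (2 ^ d * tree_psi K (e (a + d) q) -
          ∑ j ∈ range (2 ^ d), tree_psi K (e a (q * 2 ^ d + j))) := by
    intro q hq
    rw [mem_range] at hq
    have h1 := tree_node hK (2 ^ d) (e (a + d) q) (fun j => e a (q * 2 ^ d + j))
      (hb (a + d) q (by omega) hA hq) (by rw [hc]; exact hmean q hA hq)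
    rw [hc] at h1
    exact h1
  have hpow : 2 ^ (A - a) = 2 ^ (A - (a + d)) * 2 ^ d := by
    rw [← pow_add]
    congr 1
    omega
  have hpow' : (2 : ℝ) ^ (A - a) = 2 ^ (A - (a + d)) * 2 ^ d := by
    rw [← pow_add]
    congr 1
    omega
  have hD : ∑ q ∈ range (2 ^ (A - (a + d))), (2 ^ d * tree_psi K (e (a + d) q) -
      ∑ j ∈ range (2 ^ d), tree_psi K (e a (q * 2 ^ d + j)))
      = 2 ^ (A - (a + d)) * 2 ^ d * (tree_E K A e (a + d) - tree_E K A e a) := by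
    rw [Finset.sum_sub_distrib, ← Finset.mul_sum,
      ← tree_sum_mul (2 ^ (A - (a + d))) (2 ^ d) (fun i => tree_psi K (e a i)), ← hpow]
    unfold tree_E
    rw [hpow']
    field_simp
  refine ⟨?_, ?_, ?_⟩
  · intro q hq
    have h1 := hmean q hA hq
    have h2 : (∑ j ∈ range (2 ^ d), e a (q * 2 ^ d + j)) / 2 ^ d ≤ e (a + d) q := by
      rw [div_le_iff₀ hd]
      linarith
    linarith
  · have h1 : (2 : ℝ) ^ d * ∑ q ∈ range (2 ^ (A - (a + d))),
        (e (a + d) q - (∑ j ∈ range (2 ^ d), e a (q * 2 ^ d + j)) / 2 ^ d)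
        ≤ 2 ^ d * (2 * 2 ^ (A - (a + d)) * (tree_E K A e (a + d) - tree_E K A e a)) := by
      calc (2 : ℝ) ^ d * ∑ q ∈ range (2 ^ (A - (a + d))),
          (e (a + d) q - (∑ j ∈ range (2 ^ d), e a (q * 2 ^ d + j)) / 2 ^ d)
          = ∑ q ∈ range (2 ^ (A - (a + d))),
            ((2 : ℝ) ^ d * e (a + d) q - ∑ j ∈ range (2 ^ d), e a (q * 2 ^ d + j)) := by
            rw [Finset.mul_sum]
            refine Finset.sum_congr rfl fun q _ => ?_
            field_simp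
        _ ≤ ∑ q ∈ range (2 ^ (A - (a + d))), 2 * (2 ^ d * tree_psi K (e (a + d) q) -
            ∑ j ∈ range (2 ^ d), tree_psi K (e a (q * 2 ^ d + j))) :=
            Finset.sum_le_sum fun q hq => (hnode q hq).1
        _ = 2 ^ d * (2 * 2 ^ (A - (a + d)) * (tree_E K A e (a + d) - tree_E K A e a)) := by
            rw [← Finset.mul_sum, hD]
            ring
    exact le_of_mul_le_mul_left h1 hd
  · calc ∑ q ∈ range (2 ^ (A - (a + d))), ∑ j ∈ range (2 ^ d),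
          (e a (q * 2 ^ d + j) - e (a + d) q) ^ 2
        ≤ ∑ q ∈ range (2 ^ (A - (a + d))), 4 * K * (2 ^ d * tree_psi K (e (a + d) q) -
            ∑ j ∈ range (2 ^ d), tree_psi K (e a (q * 2 ^ d + j))) :=
          Finset.sum_le_sum fun q hq => (hnode q hq).2
      _ = 4 * K * (2 ^ (A - (a + d)) * 2 ^ d) * (tree_E K A e (a + d) - tree_E K A e a) := by
          rw [← Finset.mul_sum, hD]
          ring

theorem tree_E_mono {K : ℝ} (hK : 1 ≤ K) {A a0 : ℕ} {e : ℕ → ℕ → ℝ}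
    (hs : ∀ a q, a0 ≤ a → a < A → q < 2 ^ (A - (a + 1)) →
      (e a (2 * q) + e a (2 * q + 1)) / 2 ≤ e (a + 1) q)
    (hb : ∀ a q, a0 ≤ a → a ≤ A → q < 2 ^ (A - a) → |e a q| ≤ K)
    (a c : ℕ) (ha : a0 ≤ a) (hac : a ≤ c) (hA : c ≤ A) :
    tree_E K A e a ≤ tree_E K A e c := by
  obtain ⟨d, rfl⟩ := Nat.exists_eq_add_of_le hac
  have h := (tree_lev hK hs hb a d ha hA).2.2
  have h0 : 0 ≤ ∑ q ∈ range (2 ^ (A - (a + d))), ∑ j ∈ range (2 ^ d),
      (e a (q * 2 ^ d + j) - e (a + d) q) ^ 2 :=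
    Finset.sum_nonneg fun q _ => Finset.sum_nonneg fun j _ => sq_nonneg _
  have h1 := h0.trans h
  have h2 : 0 < 4 * K * (2 ^ (A - (a + d)) * 2 ^ d) := by
    have : 0 < K := by linarith
    positivity
  have h3 := nonneg_of_mul_nonneg_right h1 h2
  linarith

theorem tree_E_abs {K : ℝ} (hK : 1 ≤ K) {A a0 : ℕ} {e : ℕ → ℕ → ℝ}
    (hb : ∀ a q, a0 ≤ a → a ≤ A → q < 2 ^ (A - a) → |e a q| ≤ K)
    (a : ℕ) (ha : a0 ≤ a) (hA : a ≤ A) : |tree_E K A e a| ≤ 5 / 4 * K := by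
  have hK0 : 0 < K := by linarith
  have hN : (0 : ℝ) < 2 ^ (A - a) := by positivity
  unfold tree_E
  rw [abs_div, abs_of_pos hN, div_le_iff₀ hN]
  refine (Finset.abs_sum_le_sum_abs _ _).trans ?_
  have h1 : ∀ q ∈ range (2 ^ (A - a)), |tree_psi K (e a q)| ≤ 5 / 4 * K := by
    intro q hq
    rw [mem_range] at hq
    have h2 := hb a q ha hA hq
    unfold tree_psi
    have h3 : (e a q) ^ 2 / (4 * K) ≤ K / 4 := by
      rw [div_le_iff₀ (by linarith), ← sq_abs]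
      nlinarith [abs_nonneg (e a q)]
    have h4 : 0 ≤ (e a q) ^ 2 / (4 * K) := by positivity
    rw [abs_le] at h2 ⊢
    constructor <;> linarith [h2.1, h2.2]
  refine (Finset.sum_le_sum h1).trans ?_
  rw [Finset.sum_const, card_range, nsmul_eq_mul]
  push_cast
  linarith

theorem tree_pig (f : ℕ → ℝ) (n : ℕ) (X : ℝ) (hn : 0 < n) (h : f n - f 0 ≤ X) :
    ∃ j < n, f (j + 1) - f j ≤ X / n := by
  by_contra hc
  push Not at hc
  have h1 : ∑ j ∈ range n, X / n < ∑ j ∈ range n, (f (j + 1) - f j) := by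
    refine Finset.sum_lt_sum_of_nonempty ⟨0, mem_range.2 hn⟩ fun j hj => hc j (mem_range.1 hj)
  rw [Finset.sum_range_sub, Finset.sum_const, card_range, nsmul_eq_mul] at h1
  have hn' : (0 : ℝ) < n := by exact_mod_cast hn
  have h2 : (n : ℝ) * (X / n) = X := by field_simp
  linarith

theorem tree_markov (N : ℕ) (g : ℕ → ℝ) (δ X : ℝ) (hg : ∀ q < N, 0 ≤ g q)
    (hX : ∑ q ∈ range N, g q ≤ X) (B : Finset ℕ) (hB : ∀ q ∈ B, q < N ∧ δ ≤ g q) :
    (B.card : ℝ) * δ ≤ X := by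
  have h1 : ∑ q ∈ B, δ ≤ ∑ q ∈ B, g q := Finset.sum_le_sum fun q hq => (hB q hq).2
  have h2 : ∑ q ∈ B, g q ≤ ∑ q ∈ range N, g q :=
    Finset.sum_le_sum_of_subset_of_nonneg (fun q hq => mem_range.2 (hB q hq).1)
      fun q hq _ => hg q (mem_range.1 hq)
  rw [Finset.sum_const, nsmul_eq_mul] at h1
  linarith

/-- the module TREE -/
theorem st_TREE : ST_TREE := by
  classical
  intro K ε κ β μ a0 η c1 hK hε hκ hβ hμ hη
  have hK0 : 0 < K := by linarith
  -- number of long steps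
  obtain ⟨J0, hJ0⟩ := exists_nat_ge (30 * K ^ 2 / (κ * ε ^ 2 * β))
  set J := J0 + 1 with hJ
  have hJ1 : 30 * K ^ 2 / (κ * ε ^ 2 * β) ≤ (J : ℝ) := by
    rw [hJ]
    push_cast
    linarith
  have hJpos : (0 : ℝ) < J := by
    rw [hJ]
    positivity
  have hJ2 : 4 * K * (5 / 2 * K / J) ≤ β / 3 * (κ * ε ^ 2) := by
    have h1 : 0 < κ * ε ^ 2 * β := by positivity
    rw [div_le_iff₀ h1] at hJ1
    have h2 : 4 * K * (5 / 2 * K / J) = 10 * K ^ 2 / J := by ring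
    rw [h2, div_le_iff₀ hJpos]
    nlinarith
  -- short steps
  set ξ : ℕ → ℝ := fun a => min (β * η a / 6) (β * ε ^ 2 / (12 * K * 2 ^ μ)) with hξ
  have hξ0 : ∀ a, 0 < ξ a := fun a => lt_min (by have := hη a; positivity) (by positivity)
  have hex : ∀ a, ∃ n : ℕ, 0 < n ∧ 5 / 2 * K / n ≤ ξ a := by
    intro a
    obtain ⟨n0, hn0⟩ := exists_nat_ge (5 / 2 * K / ξ a)
    refine ⟨n0 + 1, Nat.succ_pos _, ?_⟩
    have h1 : (0 : ℝ) < ((n0 + 1 : ℕ) : ℝ) := by positivity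
    rw [div_le_iff₀ h1]
    rw [div_le_iff₀ (hξ0 a)] at hn0
    push_cast
    have := hξ0 a
    nlinarith
  choose J' hJ'0 hJ'1 using hex
  set g : ℕ → ℕ := fun a => max (c1 a) a + μ * J' a with hg
  set s : ℕ → ℕ := fun j => g^[j] a0 with hsdef
  have hs0 : s 0 = a0 := rfl
  have hs1 : ∀ j, s (j + 1) = g (s j) := fun j => Function.iterate_succ_apply' g j a0
  have hge : ∀ a, a ≤ g a := fun a => (le_max_right _ _).trans (Nat.le_add_right _ _)
  have hsm : Monotone s := monotone_nat_of_le_succ fun j => by rw [hs1]; exact hge _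
  refine ⟨s J, hsm (Nat.zero_le J), ?_⟩
  intro A hA e hsup hb
  set E := tree_E K A e with hE
  have hEabs : ∀ a, a0 ≤ a → a ≤ A → |E a| ≤ 5 / 4 * K := fun a h1 h2 => tree_E_abs hK hb a h1 h2
  have hEm : ∀ a c, a0 ≤ a → a ≤ c → c ≤ A → E a ≤ E c := fun a c h1 h2 h3 =>
    tree_E_mono hK hsup hb a c h1 h2 h3
  have hsa0 : ∀ j, a0 ≤ s j := fun j => hsm (Nat.zero_le j)
  have hdiff : ∀ a c, a0 ≤ a → a ≤ A → a0 ≤ c → c ≤ A → E c - E a ≤ 5 / 2 * K := by
    intro a c h1 h2 h3 h4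
    have i1 := abs_le.1 (hEabs a h1 h2)
    have i2 := abs_le.1 (hEabs c h3 h4)
    linarith [i1.1, i2.2]
  obtain ⟨j, hjJ, hj⟩ := tree_pig (fun j => E (s j)) J (5 / 2 * K) (by rw [hJ]; exact Nat.succ_pos _)
    (hdiff _ _ (hsa0 0) ((hsm (Nat.zero_le J)).trans hA) (hsa0 J) hA)
  have hsjA : s (j + 1) ≤ A := (hsm (by omega : j + 1 ≤ J)).trans hA
  set a := s j with ha
  have haa0 : a0 ≤ a := hsa0 j
  have hs1j : s (j + 1) = max (c1 a) a + μ * J' a := by rw [hs1]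
  have hlow : ∀ i, a0 ≤ max (c1 a) a + μ * i := fun i => by
    have : a ≤ max (c1 a) a := le_max_right _ _
    omega
  have hup : ∀ i, i ≤ J' a → max (c1 a) a + μ * i ≤ A := fun i hi => by
    have : μ * i ≤ μ * J' a := Nat.mul_le_mul_left _ hi
    omega
  obtain ⟨i, hiJ, hi⟩ := tree_pig (fun i => E (max (c1 a) a + μ * i)) (J' a) (5 / 2 * K) (hJ'0 a)
    (hdiff _ _ (hlow 0) (hup 0 (Nat.zero_le _)) (hlow _) (hup _ le_rfl))
  set c := max (c1 a) a + μ * i with hcdef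
  have hcμ : max (c1 a) a + μ * (i + 1) = c + μ := by rw [hcdef]; ring
  have hac : a ≤ c := (le_max_right _ _).trans (Nat.le_add_right _ _)
  have hc1 : c1 a ≤ c := (le_max_left _ _).trans (Nat.le_add_right _ _)
  have hcs : c + μ ≤ s (j + 1) := by
    rw [hs1j, ← hcμ]
    have : μ * (i + 1) ≤ μ * J' a := Nat.mul_le_mul_left _ hiJ
    omega
  have hcA : c + μ ≤ A := hcs.trans hsjA
  refine ⟨a, c, haa0, hac, hc1, hcs.trans (hsm (by omega : j + 1 ≤ J)), ?_⟩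
  -- energies
  have hξ1 : E (c + μ) - E c ≤ ξ a := by
    have h1 : E (max (c1 a) a + μ * (i + 1)) - E (max (c1 a) a + μ * i) ≤ 5 / 2 * K / (J' a) := hi
    rw [hcμ] at h1
    exact h1.trans (hJ'1 a)
  have hξ2 : E (c + μ) - E a ≤ 5 / 2 * K / J := by
    have h1 : E (c + μ) ≤ E (s (j + 1)) := hEm _ _ (by omega) hcs hsjA
    have h2 : E (s (j + 1)) - E (s j) ≤ 5 / 2 * K / J := hj
    rw [← ha] at h2
    linarith
  set N := 2 ^ (A - (c + μ)) with hN
  have hNpos : (0 : ℝ) < 2 ^ (A - (c + μ)) := by positivity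
  obtain ⟨l1, l2, l3⟩ := tree_lev hK hsup hb c μ (by omega) hcA
  obtain ⟨d, hd⟩ : ∃ d, c + μ = a + d := ⟨c + μ - a, by omega⟩
  have hd' : c + μ - a = d := by omega
  obtain ⟨-, -, m3⟩ := tree_lev hK hsup hb a d haa0 (by omega)
  rw [← hd, ← hE] at m3
  rw [← hE] at l2 l3
  set B1 : Finset ℕ := (range N).filter (fun q =>
    η a < e (c + μ) q - (∑ j ∈ range (2 ^ μ), e c (q * 2 ^ μ + j)) / 2 ^ μ) with hB1
  set B2 : Finset ℕ := (range N).filter (fun q =>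
    ∃ j < 2 ^ μ, ε < |e c (q * 2 ^ μ + j) - e (c + μ) q|) with hB2
  set B3 : Finset ℕ := (range N).filter (fun q =>
    κ * 2 ^ (c + μ - a) < (((Finset.range (2 ^ (c + μ - a))).filter (fun j =>
      e a (q * 2 ^ (c + μ - a) + j) < e (c + μ) q - ε)).card : ℝ)) with hB3
  have b1 : (B1.card : ℝ) ≤ β / 3 * 2 ^ (A - (c + μ)) := by
    have h1 := tree_markov N (fun q => e (c + μ) q -
      (∑ j ∈ range (2 ^ μ), e c (q * 2 ^ μ + j)) / 2 ^ μ) (η a) _ (fun q hq => l1 q hq) l2 B1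
      (fun q hq => ⟨mem_range.1 (mem_filter.1 hq).1, (mem_filter.1 hq).2.le⟩)
    have h2 : ξ a ≤ β * η a / 6 := min_le_left _ _
    have h3 : 2 * 2 ^ (A - (c + μ)) * (E (c + μ) - E c)
        ≤ 2 * 2 ^ (A - (c + μ)) * (β * η a / 6) :=
      mul_le_mul_of_nonneg_left (hξ1.trans h2) (by positivity)
    have h4 : (B1.card : ℝ) * η a ≤ (β / 3 * 2 ^ (A - (c + μ))) * η a := by
      refine (h1.trans h3).trans (le_of_eq ?_)
      ring
    exact le_of_mul_le_mul_right h4 (hη a)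
  have b2 : (B2.card : ℝ) ≤ β / 3 * 2 ^ (A - (c + μ)) := by
    have h1 := tree_markov N (fun q => ∑ j ∈ range (2 ^ μ),
      (e c (q * 2 ^ μ + j) - e (c + μ) q) ^ 2) (ε ^ 2) _
      (fun q _ => Finset.sum_nonneg fun j _ => sq_nonneg _) l3 B2 (fun q hq => by
        refine ⟨mem_range.1 (mem_filter.1 hq).1, ?_⟩
        obtain ⟨j, hj1, hj2⟩ := (mem_filter.1 hq).2
        have h5 : (e c (q * 2 ^ μ + j) - e (c + μ) q) ^ 2 ≤ ∑ j ∈ range (2 ^ μ),
            (e c (q * 2 ^ μ + j) - e (c + μ) q) ^ 2 :=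
          Finset.single_le_sum (f := fun j => (e c (q * 2 ^ μ + j) - e (c + μ) q) ^ 2)
            (fun j _ => sq_nonneg _) (mem_range.2 hj1)
        refine le_trans ?_ h5
        rw [← sq_abs (e c (q * 2 ^ μ + j) - e (c + μ) q)]
        exact pow_le_pow_left₀ hε.le hj2.le 2)
    have h2 : ξ a ≤ β * ε ^ 2 / (12 * K * 2 ^ μ) := min_le_right _ _
    have h3 : 4 * K * (2 ^ (A - (c + μ)) * 2 ^ μ) * (E (c + μ) - E c)
        ≤ 4 * K * (2 ^ (A - (c + μ)) * 2 ^ μ) * (β * ε ^ 2 / (12 * K * 2 ^ μ)) :=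
      mul_le_mul_of_nonneg_left (hξ1.trans h2) (by positivity)
    have h4 : (B2.card : ℝ) * ε ^ 2 ≤ (β / 3 * 2 ^ (A - (c + μ))) * ε ^ 2 := by
      refine (h1.trans h3).trans (le_of_eq ?_)
      field_simp
      ring
    exact le_of_mul_le_mul_right h4 (by positivity)
  have b3 : (B3.card : ℝ) ≤ β / 3 * 2 ^ (A - (c + μ)) := by
    have h1 := tree_markov N (fun q => ∑ j ∈ range (2 ^ d),
      (e a (q * 2 ^ d + j) - e (c + μ) q) ^ 2) (κ * 2 ^ d * ε ^ 2) _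
      (fun q _ => Finset.sum_nonneg fun j _ => sq_nonneg _) m3 B3 (fun q hq => by
        refine ⟨mem_range.1 (mem_filter.1 hq).1, ?_⟩
        have h5 := (mem_filter.1 hq).2
        rw [hd'] at h5
        set G : Finset ℕ := (Finset.range (2 ^ d)).filter (fun j =>
          e a (q * 2 ^ d + j) < e (c + μ) q - ε) with hG
        have h6 : ∑ j ∈ G, ε ^ 2 ≤ ∑ j ∈ G, (e a (q * 2 ^ d + j) - e (c + μ) q) ^ 2 := by
          refine Finset.sum_le_sum fun j hj => ?_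
          have h7 := (mem_filter.1 hj).2
          nlinarith
        have h8 : ∑ j ∈ G, (e a (q * 2 ^ d + j) - e (c + μ) q) ^ 2 ≤
            ∑ j ∈ range (2 ^ d), (e a (q * 2 ^ d + j) - e (c + μ) q) ^ 2 :=
          Finset.sum_le_sum_of_subset_of_nonneg (Finset.filter_subset _ _)
            fun j _ _ => sq_nonneg _
        rw [Finset.sum_const, nsmul_eq_mul] at h6
        refine le_trans ?_ (h6.trans h8)
        exact mul_le_mul_of_nonneg_right h5.le (by positivity))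
    have h3 : 4 * K * (2 ^ (A - (c + μ)) * 2 ^ d) * (E (c + μ) - E a)
        ≤ 4 * K * (2 ^ (A - (c + μ)) * 2 ^ d) * (5 / 2 * K / J) :=
      mul_le_mul_of_nonneg_left hξ2 (by positivity)
    have h4 : (B3.card : ℝ) * (κ * 2 ^ d * ε ^ 2) ≤
        (β / 3 * 2 ^ (A - (c + μ))) * (κ * 2 ^ d * ε ^ 2) := by
      refine (h1.trans h3).trans ?_
      have h5 : (2 ^ (A - (c + μ)) * 2 ^ d) * (4 * K * (5 / 2 * K / J)) ≤
          (2 ^ (A - (c + μ)) * 2 ^ d) * (β / 3 * (κ * ε ^ 2)) :=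
        mul_le_mul_of_nonneg_left hJ2 (by positivity)
      calc 4 * K * (2 ^ (A - (c + μ)) * 2 ^ d) * (5 / 2 * K / J)
          = (2 ^ (A - (c + μ)) * 2 ^ d) * (4 * K * (5 / 2 * K / J)) := by ring
        _ ≤ (2 ^ (A - (c + μ)) * 2 ^ d) * (β / 3 * (κ * ε ^ 2)) := h5
        _ = (β / 3 * 2 ^ (A - (c + μ))) * (κ * 2 ^ d * ε ^ 2) := by ring
    exact le_of_mul_le_mul_right h4 (by positivity)
  have hsub : ((Finset.range (2 ^ (A - (c + μ)))).filter (fun q =>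
        ¬ (e (c + μ) q - (∑ j ∈ Finset.range (2 ^ μ), e c (q * 2 ^ μ + j)) / 2 ^ μ ≤ η a ∧
          (∀ j < 2 ^ μ, |e c (q * 2 ^ μ + j) - e (c + μ) q| ≤ ε) ∧
          (((Finset.range (2 ^ (c + μ - a))).filter (fun j => e a (q * 2 ^ (c + μ - a) + j) <
            e (c + μ) q - ε)).card : ℝ) ≤ κ * 2 ^ (c + μ - a)))) ⊆ B1 ∪ (B2 ∪ B3) := by
    intro q hq
    obtain ⟨hq1, hq2⟩ := mem_filter.1 hq
    rw [mem_union, mem_union]
    by_cases h1 : e (c + μ) q - (∑ j ∈ Finset.range (2 ^ μ), e c (q * 2 ^ μ + j)) / 2 ^ μ ≤ η a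
    · by_cases h2 : ∀ j < 2 ^ μ, |e c (q * 2 ^ μ + j) - e (c + μ) q| ≤ ε
      · refine Or.inr (Or.inr (mem_filter.2 ⟨hq1, ?_⟩))
        by_contra h3
        exact hq2 ⟨h1, h2, not_lt.1 h3⟩
      · push Not at h2
        exact Or.inr (Or.inl (mem_filter.2 ⟨hq1, h2⟩))
    · exact Or.inl (mem_filter.2 ⟨hq1, not_le.1 h1⟩)
  have hcard := (Finset.card_le_card hsub).trans ((Finset.card_union_le _ _).trans
    (Nat.add_le_add_left (Finset.card_union_le _ _) _))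
  have hcard' : (((Finset.range (2 ^ (A - (c + μ)))).filter (fun q =>
        ¬ (e (c + μ) q - (∑ j ∈ Finset.range (2 ^ μ), e c (q * 2 ^ μ + j)) / 2 ^ μ ≤ η a ∧
          (∀ j < 2 ^ μ, |e c (q * 2 ^ μ + j) - e (c + μ) q| ≤ ε) ∧
          (((Finset.range (2 ^ (c + μ - a))).filter (fun j => e a (q * 2 ^ (c + μ - a) + j) <
            e (c + μ) q - ε)).card : ℝ) ≤ κ * 2 ^ (c + μ - a)))).card : ℝ) ≤
      (B1.card : ℝ) + ((B2.card : ℝ) + (B3.card : ℝ)) := by exact_mod_cast hcard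
  linarith

end Pool.Agent.Helper70.DK

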